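import Pool.Agent.X95T.HI6

/-!
The Hall–Lang bound `h(x) ≤ C₁ h(f) + C₂` for the curves `y ^ 2 = Q x ^ 2 - e u(x) ^ p` of even
degree with exactly one place at infinity, of degree two (`p` any prime).
-/

set_option autoImplicit false

namespace Pool.Agent.Results.MP_d88658_nt.EvenDegree

open Polynomial Pool.Agent.X95T

/-- Let `p` be a prime and `δ ≥ 1`. There is a `C₁` such that for every finite set `S` of primes
there is a `C₂` such that the following holds for all `f = Q ^ 2 - e u ^ p` of degree `2 p δ`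
without repeated roots, with `deg u = 2 δ`, `2 deg Q < deg f`, whose leading coefficient is not a
square and for which the ideal of `ℤ[x]` generated by `u` and `2 Q` contains an integer `b`, where
`b`, `e` and the leading coefficient of `u` are nonzero with all prime factors in `S`:
`h(x) ≤ C₁ h(f) + C₂` for all integral points `(x, y)` of `y ^ 2 = f x`. -/
theorem result (p δ : ℕ) (hp : p.Prime) (hδ : 1 ≤ δ) :
    ∃ C₁ : ℝ, ∀ S : Finset ℕ, ∃ C₂ : ℝ, ∀ (f Q u U V : ℤ[X]) (e b : ℤ),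
      f.natDegree = p * (2 * δ) → u.natDegree = 2 * δ → 2 * Q.natDegree < p * (2 * δ) →
      (f.map (Int.castRingHom ℚ)).Separable → ¬ IsSquare f.leadingCoeff →
      f = Q ^ 2 - C e * u ^ p → U * u + V * (C 2 * Q) = C b → b * (e * u.leadingCoeff) ≠ 0 →
      (∀ q : ℕ, q.Prime → (q : ℤ) ∣ b * (e * u.leadingCoeff) → q ∈ S) →
      ∀ x y : ℤ, y ^ 2 = f.eval x →
        Real.log (max |(x : ℝ)| 1) ≤
          C₁ * Real.log (max ((f.support.sup (fun i => (f.coeff i).natAbs) : ℕ) : ℝ) 1) + C₂ := by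
  obtain ⟨K, hK⟩ := hyp_E p δ hp hδ
  refine ⟨K, fun S => ?_⟩
  obtain ⟨c, hc⟩ := hK S
  refine ⟨K * Real.log (c + 1), ?_⟩
  intro f Q u U V e b hf hu hQ hsep hnc hfe hUV hne hS x y hy
  obtain ⟨H, hHd⟩ : ∃ H : ℕ, H = f.support.sup (fun i => (f.coeff i).natAbs) := ⟨_, rfl⟩
  have hH : ∀ i, (f.coeff i).natAbs ≤ H := by
    intro i
    by_cases hi : i ∈ f.support
    · rw [hHd]
      exact Finset.le_sup (f := fun i => (f.coeff i).natAbs) hi
    · rw [notMem_support_iff.mp hi]
      simp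
  have hmain := hc f Q u U V e b H hf hu hQ hsep.squarefree hnc hfe hUV hne hS hH x y hy
  have hf0 : f ≠ 0 := by
    rintro rfl
    rw [natDegree_zero] at hf
    have : 0 < p * (2 * δ) := Nat.mul_pos hp.pos (by omega)
    omega
  have hH1 : 1 ≤ H := (Int.natAbs_pos.2 (leadingCoeff_ne_zero.2 hf0)).trans_le (hH _)
  rw [← hHd]
  have hHR : (1 : ℝ) ≤ H := by exact_mod_cast hH1
  have hx : max |(x : ℝ)| 1 ≤ ((c + 1) * H) ^ K := by
    apply max_le
    · have h1 : |(x : ℝ)| = ((x.natAbs : ℕ) : ℝ) := by rw [Nat.cast_natAbs, Int.cast_abs]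
      rw [h1]
      have h2 : x.natAbs ≤ ((c + 1) * H) ^ K :=
        hmain.trans (Nat.pow_le_pow_left (Nat.mul_le_mul_right _ (Nat.le_succ _)) _)
      exact_mod_cast h2
    · apply one_le_pow₀
      nlinarith [(Nat.cast_nonneg c : (0 : ℝ) ≤ c)]
  have h3 : Real.log (max |(x : ℝ)| 1) ≤ Real.log (((c + 1) * H) ^ K) :=
    Real.log_le_log (by positivity) hx
  rw [Real.log_pow, Real.log_mul (by positivity) (by positivity)] at h3
  rw [max_eq_left hHR]
  linarith

end Pool.Agent.Results.MP_d88658_nt.EvenDegree
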