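import Pool.Agent.X95T.HE

/-!
Hyperelliptic curves `y ^ 2 = f x` of odd degree with a rational point of odd prime order `p` on
the Jacobian, given by a function `A + B y` of norm `e u ^ p` with `u` coprime to `2 A`.
-/

set_option autoImplicit false

namespace Pool.Agent.Results.MP_d88658_nt.RationalTorsionOddDegree

open Polynomial Pool.Agent.X95T

/-- For `d` odd and `p` an odd prime there is an exponent `K` such that for every finite set `S`
of primes the integral points of all curves `y ^ 2 = f x`, `deg f = d`, carrying a torsion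
function `A + B y` of norm `A ^ 2 - f B ^ 2 = e u ^ p` with bad primes in `S` satisfy
`|x| ≤ (c M) ^ K`, where `M` bounds `e` and the coefficients of `A` and `u`. -/
theorem result (d p : ℕ) (hd : Odd d) (hp : p.Prime) (hp2 : p ≠ 2) :
    ∃ K : ℕ, ∀ S : Finset ℕ, ∃ c : ℕ, ∀ (f A B u U V : ℤ[X]) (e b : ℤ) (M : ℕ),
      f.natDegree = d → (f.map (Int.castRingHom ℚ)).Separable → B ≠ 0 → u.natDegree < d →
      A ^ 2 - f * B ^ 2 = C e * u ^ p → U * u + V * (C 2 * A) = C b →
      b * (e * u.leadingCoeff) ≠ 0 →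
      (∀ q : ℕ, q.Prime → (q : ℤ) ∣ b * (e * u.leadingCoeff) → q ∈ S) →
      (∀ i, (A.coeff i).natAbs ≤ M) → (∀ i, (u.coeff i).natAbs ≤ M) → e.natAbs ≤ M →
      ∀ x y : ℤ, y ^ 2 = f.eval x → x.natAbs ≤ (c * M) ^ K := by
  obtain ⟨K, hK⟩ := hyp_all d p hd hp hp2
  refine ⟨K, fun S => ?_⟩
  obtain ⟨c, hc⟩ := hK S
  exact ⟨c, fun f A B u U V e b M hf hs => hc f A B u U V e b M hf hs.squarefree⟩

end Pool.Agent.Results.MP_d88658_nt.RationalTorsionOddDegree
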